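import Pool.Agent.V11243.RKPair
import Pool.Agent.V11243.Rigid

/-!
# The Rudin-Keisler order and the Comfort order are not isomorphic

In the Comfort order any two ultrafilters have a least upper bound, the tensor product. In the
Rudin-Keisler order there are two ultrafilters without a least upper bound.
-/

set_option autoImplicit false

open Filter Topology Set

namespace Pool.Agent.Results.MP_6ed562_lc.NotIsomorphic

universe w

/-- The Rudin-Keisler preorder. -/
def RKLe (u v : Ultrafilter ℕ) : Prop := ∃ f : ℕ → ℕ, v.map f = u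

/-- `X` is `u`-compact: every sequence in `X` has a `u`-limit. -/
def UCompact (u : Ultrafilter ℕ) (X : Type w) [TopologicalSpace X] : Prop :=
  ∀ x : ℕ → X, ∃ p : X, ∀ V ∈ 𝓝 p, {n | x n ∈ V} ∈ u

/-- The Comfort preorder: every `v`-compact Tychonoff space is `u`-compact. -/
def ComfortLe (u v : Ultrafilter ℕ) : Prop :=
  ∀ (X : Type w) [TopologicalSpace X] [T35Space X], UCompact v X → UCompact u X

/-- The set of the equivalence classes of a preorder `r` on `βω`, for the equivalence relation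
`r u v ∧ r v u`. -/
def Classes (r : Ultrafilter ℕ → Ultrafilter ℕ → Prop) : Type :=
  Quot fun u v => r u v ∧ r v u

/-- the class of `u` -/
def cls (r : Ultrafilter ℕ → Ultrafilter ℕ → Prop) (u : Ultrafilter ℕ) : Classes r :=
  Quot.mk _ u

/-- The partial order on the classes induced by `r`. -/
def ClassLe (r : Ultrafilter ℕ → Ultrafilter ℕ → Prop) (a b : Classes r) : Prop :=
  ∃ u v, cls r u = a ∧ cls r v = b ∧ r u v

/-- reflexive and transitive relations -/
structure IsPre (r : Ultrafilter ℕ → Ultrafilter ℕ → Prop) : Prop where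
  refl : ∀ u, r u u
  trans : ∀ u v z, r u v → r v z → r u z

theorem isPre_rk : IsPre RKLe where
  refl u := ⟨id, Ultrafilter.map_id u⟩
  trans := by
    rintro u v z ⟨f, hf⟩ ⟨g, hg⟩
    refine ⟨f ∘ g, ?_⟩
    rw [← Ultrafilter.map_map, hg, hf]

theorem isPre_comfort : IsPre ComfortLe.{w} where
  refl u := fun X _ _ h => h
  trans u v z h1 h2 := fun X _ _ h => h1 X (h2 X h)

theorem cls_eq {r : Ultrafilter ℕ → Ultrafilter ℕ → Prop} (hr : IsPre r) {u v : Ultrafilter ℕ} :
    cls r u = cls r v ↔ r u v ∧ r v u := by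
  have he : Equivalence (fun u v => r u v ∧ r v u) :=
    ⟨fun u => ⟨hr.refl u, hr.refl u⟩, fun h => ⟨h.2, h.1⟩,
      fun h1 h2 => ⟨hr.trans _ _ _ h1.1 h2.1, hr.trans _ _ _ h2.2 h1.2⟩⟩
  constructor
  · intro h
    exact Quot.eqvGen_exact h |> fun h => (he.eqvGen_iff).1 h
  · intro h
    exact Quot.sound h

theorem classLe_iff {r : Ultrafilter ℕ → Ultrafilter ℕ → Prop} (hr : IsPre r)
    {u v : Ultrafilter ℕ} : ClassLe r (cls r u) (cls r v) ↔ r u v := by
  constructor
  · rintro ⟨u', v', hu, hv, h⟩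
    exact hr.trans _ _ _ ((cls_eq hr).1 hu).2 (hr.trans _ _ _ h ((cls_eq hr).1 hv).1)
  · intro h
    exact ⟨u, v, rfl, rfl, h⟩

/-- the tensor product, transferred to `ℕ` by the pairing bijection -/
def tensor (u v : Ultrafilter ℕ) : Ultrafilter ℕ :=
  u.bind fun i => v.map fun j => Nat.pair i j

theorem mem_tensor (u v : Ultrafilter ℕ) (X : Set ℕ) :
    X ∈ tensor u v ↔ {i | {j | Nat.pair i j ∈ X} ∈ v} ∈ u := Iff.rfl

theorem ultra_ext {α : Type*} {u v : Ultrafilter α} (h : ∀ s, s ∈ u → s ∈ v) : u = v := by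
  refine Ultrafilter.coe_le_coe.1 ?_ |>.symm
  intro s hs
  exact h s hs

theorem rkLe_tensor_left (u v : Ultrafilter ℕ) : RKLe u (tensor u v) := by
  refine ⟨fun n => n.unpair.1, ultra_ext fun s hs => ?_⟩
  rw [Ultrafilter.mem_map, mem_tensor] at hs
  filter_upwards [hs] with i hi
  obtain ⟨j, hj⟩ := v.nonempty_of_mem hi
  have h : (Nat.pair i j).unpair.1 ∈ s := hj
  rwa [Nat.unpair_pair] at h

theorem rkLe_tensor_right (u v : Ultrafilter ℕ) : RKLe v (tensor u v) := by
  refine ⟨fun n => n.unpair.2, ultra_ext fun s hs => ?_⟩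
  rw [Ultrafilter.mem_map, mem_tensor] at hs
  obtain ⟨i, hi⟩ := u.nonempty_of_mem hs
  have hi' : {j | (Nat.pair i j).unpair.2 ∈ s} ∈ v := hi
  simpa using hi'

/-- A space which is `v`-compact is compact for every image of `v`. -/
theorem UCompact.of_rkLe {u v : Ultrafilter ℕ} (h : RKLe u v) {X : Type w} [TopologicalSpace X]
    (hX : UCompact v X) : UCompact u X := by
  obtain ⟨f, rfl⟩ := h
  intro x
  obtain ⟨p, hp⟩ := hX (x ∘ f)
  exact ⟨p, fun V hV => hp V hV⟩

theorem uCompact_tensor {u v : Ultrafilter ℕ} {X : Type w} [TopologicalSpace X]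
    (hu : UCompact u X) (hv : UCompact v X) : UCompact (tensor u v) X := by
  intro x
  choose y hy using fun i => hv fun j => x (Nat.pair i j)
  obtain ⟨p, hp⟩ := hu y
  refine ⟨p, fun V hV => ?_⟩
  obtain ⟨V', hV'V, hV', hpV'⟩ := mem_nhds_iff.1 hV
  rw [mem_tensor]
  filter_upwards [hp V' (hV'.mem_nhds hpV')] with i hi
  filter_upwards [hy i V' (hV'.mem_nhds hi)] with j hj
  exact hV'V hj

/-- `z` is a least upper bound of `u` and `v`. -/
def IsJoin {α : Type*} (r : α → α → Prop) (u v z : α) : Prop :=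
  r u z ∧ r v z ∧ ∀ t, r u t → r v t → r z t

theorem comfort_join (u v : Ultrafilter ℕ) : IsJoin ComfortLe.{w} u v (tensor u v) :=
  ⟨fun _ _ _ h => h.of_rkLe (rkLe_tensor_left u v),
    fun _ _ _ h => h.of_rkLe (rkLe_tensor_right u v),
    fun _ h1 h2 X _ _ h => uCompact_tensor (h1 X h) (h2 X h)⟩

/-- **No least upper bound in the Rudin-Keisler order.** -/
theorem rk_no_join : ∃ u v : Ultrafilter ℕ, ¬ ∃ z, IsJoin RKLe u v z := by
  obtain ⟨u, v, hu, hv, huv, hvu⟩ := Pool.Agent.V11243.RKPair.exists_pair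
  refine ⟨u, v, ?_⟩
  rintro ⟨z, ⟨f, hf⟩, ⟨g, hg⟩, hz⟩
  -- the key lemma
  have key : ∀ (u v z : Ultrafilter ℕ) (f g : ℕ → ℕ), (u : Filter ℕ) ≤ cofinite →
      (v : Filter ℕ) ≤ cofinite →
      (∀ g : ℕ → ℕ → ℕ, Pool.Agent.V11243.RKPair.Task g u v) →
      (∀ g : ℕ → ℕ → ℕ, Pool.Agent.V11243.RKPair.Task g v u) →
      z.map f = u → z.map g = v → RKLe z (tensor u v) → {n | f n < g n} ∈ z := by
    intro u v z f g hu hv huv hvu hf hg hz
    obtain ⟨h, hh⟩ := hz
    subst hh
    -- the first map is constant on almost all vertical sections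
    have h1 : ∀ X, X ∈ u ↔ {i | {j | f (h (Nat.pair i j)) ∈ X} ∈ v} ∈ u := by
      intro X
      conv_lhs => rw [← hf]
      rfl
    have h2 : ∀ X, X ∈ v ↔ {i | {j | g (h (Nat.pair i j)) ∈ X} ∈ v} ∈ u := by
      intro X
      conv_lhs => rw [← hg]
      rfl
    obtain ⟨B, hB, hBn⟩ := huv fun i j => f (h (Nat.pair i j))
    have h3 : {i | ∃ k, {j | f (h (Nat.pair i j)) = k} ∈ v} ∈ u := by
      filter_upwards [(h1 B).1 hB] with i hi
      refine (hBn i).resolve_right fun hc => ?_
      obtain ⟨j, hj1, hj2⟩ := v.nonempty_of_mem (Filter.inter_mem hi hc)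
      exact hj2 hj1
    choose! φ hφ using (fun i (hi : ∃ k, {j | f (h (Nat.pair i j)) = k} ∈ v) => hi)
    have h4 : u.map φ = u := by
      refine ultra_ext fun s hs => ?_
      rw [h1]
      rw [Ultrafilter.mem_map] at hs
      filter_upwards [hs, h3] with i hi1 hi2
      filter_upwards [hφ i hi2] with j hj
      have hj' : f (h (Nat.pair i j)) = φ i := hj
      show f (h (Nat.pair i j)) ∈ s
      rw [hj']
      exact hi1
    have h5 : {i | {j | f (h (Nat.pair i j)) = i} ∈ v} ∈ u := by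
      filter_upwards [Pool.Agent.V11243.Rigid.rigid u φ h4, h3] with i hi1 hi2
      have := hφ i hi2
      rw [hi1] at this
      exact this
    -- the second map is large on almost all vertical sections
    have h6 : {i | {j | i < g (h (Nat.pair i j))} ∈ v} ∈ u := by
      by_contra hc
      rw [← Ultrafilter.compl_mem_iff_notMem] at hc
      have h7 : {i | ∃ k, {j | g (h (Nat.pair i j)) = k} ∈ v} ∈ u := by
        filter_upwards [hc] with i hi
        have h8 : {j | g (h (Nat.pair i j)) ≤ i} ∈ v := by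
          have hi' : {j | i < g (h (Nat.pair i j))} ∉ v := hi
          rw [← Ultrafilter.compl_mem_iff_notMem] at hi'
          filter_upwards [hi'] with j hj
          exact not_lt.1 hj
        have h9 : (⋃ k ∈ Set.Iic i, {j | g (h (Nat.pair i j)) = k}) ∈ v := by
          filter_upwards [h8] with j hj
          exact Set.mem_biUnion (show g (h (Nat.pair i j)) ∈ Set.Iic i from hj) rfl
        obtain ⟨k, -, hk⟩ := (Ultrafilter.finite_biUnion_mem_iff (Set.finite_Iic i)).1 h9
        exact ⟨k, hk⟩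
      choose! ψ hψ using (fun i (hi : ∃ k, {j | g (h (Nat.pair i j)) = k} ∈ v) => hi)
      have h8 : u.map ψ = v := by
        refine ultra_ext fun s hs => ?_
        rw [h2]
        rw [Ultrafilter.mem_map] at hs
        filter_upwards [hs, h7] with i hi1 hi2
        filter_upwards [hψ i hi2] with j hj
        have hj' : g (h (Nat.pair i j)) = ψ i := hj
        show g (h (Nat.pair i j)) ∈ s
        rw [hj']
        exact hi1
      obtain ⟨B, hB, hBn⟩ := hvu fun _ => ψ
      rcases hBn 0 with ⟨k, hk⟩ | hk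
      · have h9 : {k} ∈ v := by
          rw [← h8]
          exact hk
        have h10 : ({k} : Set ℕ)ᶜ ∈ v := hv ((Set.finite_singleton k).compl_mem_cofinite)
        exact Ultrafilter.compl_mem_iff_notMem.1 h10 h9
      · have h9 : Bᶜ ∈ v := by
          rw [← h8]
          exact hk
        exact Ultrafilter.compl_mem_iff_notMem.1 h9 hB
    show {i | {j | f (h (Nat.pair i j)) < g (h (Nat.pair i j))} ∈ v} ∈ u
    filter_upwards [h5, h6] with i hi1 hi2
    filter_upwards [hi1, hi2] with j hj1 hj2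
    have hj1' : f (h (Nat.pair i j)) = i := hj1
    show f (h (Nat.pair i j)) < g (h (Nat.pair i j))
    rw [hj1']
    exact hj2
  have h1 := key u v z f g hu hv huv hvu hf hg
    (hz (tensor u v) (rkLe_tensor_left u v) (rkLe_tensor_right u v))
  have h2 := key v u z g f hv hu hvu huv hg hf
    (hz (tensor v u) (rkLe_tensor_right v u) (rkLe_tensor_left v u))
  obtain ⟨n, hn1, hn2⟩ := z.nonempty_of_mem (Filter.inter_mem h1 h2)
  have hn1' : f n < g n := hn1
  have hn2' : g n < f n := hn2
  exact lt_asymm hn1' hn2'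

/-- **Theorem.** There is no bijection `Φ` between the set of the classes of the Rudin-Keisler
preorder and the set of the classes of the Comfort preorder with `a ≤ b` if and only if
`Φ a ≤ Φ b`, for all classes `a`, `b`. -/
theorem result : ¬ ∃ Φ : Classes RKLe ≃ Classes ComfortLe.{w},
    ∀ a b, ClassLe RKLe a b ↔ ClassLe ComfortLe.{w} (Φ a) (Φ b) := by
  rintro ⟨Φ, hΦ⟩
  obtain ⟨u, v, huv⟩ := rk_no_join
  apply huv
  obtain ⟨u', hu'⟩ : ∃ u', cls ComfortLe.{w} u' = Φ (cls RKLe u) := Quot.exists_rep _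
  obtain ⟨v', hv'⟩ : ∃ v', cls ComfortLe.{w} v' = Φ (cls RKLe v) := Quot.exists_rep _
  obtain ⟨h1, h2, h3⟩ := comfort_join.{w} u' v'
  obtain ⟨z, hz⟩ : ∃ z, cls RKLe z = Φ.symm (cls ComfortLe.{w} (tensor u' v')) :=
    Quot.exists_rep _
  have hz' : Φ (cls RKLe z) = cls ComfortLe.{w} (tensor u' v') := by
    rw [hz, Φ.apply_symm_apply]
  refine ⟨z, ?_, ?_, fun t ht1 ht2 => ?_⟩
  · rw [← classLe_iff isPre_rk, hΦ, hz', ← hu', classLe_iff isPre_comfort]
    exact h1
  · rw [← classLe_iff isPre_rk, hΦ, hz', ← hv', classLe_iff isPre_comfort]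
    exact h2
  · obtain ⟨t', ht'⟩ : ∃ t', cls ComfortLe.{w} t' = Φ (cls RKLe t) := Quot.exists_rep _
    rw [← classLe_iff isPre_rk, hΦ, ← hu', ← ht', classLe_iff isPre_comfort] at ht1
    rw [← classLe_iff isPre_rk, hΦ, ← hv', ← ht', classLe_iff isPre_comfort] at ht2
    rw [← classLe_iff isPre_rk, hΦ, hz', ← ht', classLe_iff isPre_comfort]
    exact h3 t' ht1 ht2

end Pool.Agent.Results.MP_6ed562_lc.NotIsomorphic
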